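import Pool.Agent.Helper56.Un.E8All0
import Pool.Agent.Helper95.Un.E_ISO

set_option autoImplicit false

/-!
# The weight for the Eisenstein lattice over `E₈`
-/

namespace Pool.Agent.Helper19.Un

theorem ewts_all : ST_EWTS := ewts_all0 st_EISO

end Pool.Agent.Helper19.Un
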