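import Pool.Agent.Helper56.Un.E8Stmts

set_option autoImplicit false

/-!
# Module E_LOWX
-/

namespace Pool.Agent.Helper19.Un

theorem elowx_i0 (H s σ : ℝ) (h1 : (3 / 2) ≤ H) (h2 : H ≤ (31 / 20)) (hs : 0 ≤ s) (hσ : 0 ≤ σ)
    (hσ1 : σ ≤ 1) (h : s ≤ σ * (s / 2 - 1 / 2 + H / 3)) :
    ((3487 / 500) + (19 / 5) * (H - (3 / 2))) * (s + (1 - σ ^ 2) / 16 + (1 / 4) ^ 2) ≤
      2 * (1 / 4) * (156 / 25 * H - H ^ 2 - 21 / 4 + s * (63 / 8 + 9 / 8 * σ) + 9 / 4 * s ^ 2) := by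
  nlinarith [mul_nonneg hs hσ, mul_nonneg hs (sub_nonneg.2 hσ1), mul_nonneg hσ (sub_nonneg.2 hσ1),
    mul_nonneg (sub_nonneg.2 h1) (sub_nonneg.2 h2), mul_nonneg hs (sub_nonneg.2 h1),
    mul_nonneg hs (sub_nonneg.2 h2), mul_nonneg hσ (sub_nonneg.2 h1),
    mul_nonneg hσ (sub_nonneg.2 h2), sq_nonneg s, sq_nonneg (s - 1 / 5)]

theorem elowx_i1 (H s σ : ℝ) (h1 : (31 / 20) ≤ H) (h2 : H ≤ (8 / 5)) (hs : 0 ≤ s) (hσ : 0 ≤ σ)
    (hσ1 : σ ≤ 1) (h : s ≤ σ * (s / 2 - 1 / 2 + H / 3)) :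
    ((3767 / 500) + 4 * (H - (31 / 20))) * (s + (1 - σ ^ 2) / 16 + (13 / 50) ^ 2) ≤
      2 * (13 / 50) * (156 / 25 * H - H ^ 2 - 21 / 4 + s * (63 / 8 + 9 / 8 * σ) + 9 / 4 * s ^ 2) := by
  nlinarith [mul_nonneg hs hσ, mul_nonneg hs (sub_nonneg.2 hσ1), mul_nonneg hσ (sub_nonneg.2 hσ1),
    mul_nonneg (sub_nonneg.2 h1) (sub_nonneg.2 h2), mul_nonneg hs (sub_nonneg.2 h1),
    mul_nonneg hs (sub_nonneg.2 h2), mul_nonneg hσ (sub_nonneg.2 h1),
    mul_nonneg hσ (sub_nonneg.2 h2), sq_nonneg s, sq_nonneg (s - 1 / 5)]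

theorem elowx_i2 (H s σ : ℝ) (h1 : (8 / 5) ≤ H) (h2 : H ≤ (33 / 20)) (hs : 0 ≤ s) (hσ : 0 ≤ σ)
    (hσ1 : σ ≤ 1) (h : s ≤ σ * (s / 2 - 1 / 2 + H / 3)) :
    ((8329 / 1000) + (21 / 5) * (H - (8 / 5))) * (s + (1 - σ ^ 2) / 16 + (27 / 100) ^ 2) ≤
      2 * (27 / 100) * (156 / 25 * H - H ^ 2 - 21 / 4 + s * (63 / 8 + 9 / 8 * σ) + 9 / 4 * s ^ 2) := by
  nlinarith [mul_nonneg hs hσ, mul_nonneg hs (sub_nonneg.2 hσ1), mul_nonneg hσ (sub_nonneg.2 hσ1),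
    mul_nonneg (sub_nonneg.2 h1) (sub_nonneg.2 h2), mul_nonneg hs (sub_nonneg.2 h1),
    mul_nonneg hs (sub_nonneg.2 h2), mul_nonneg hσ (sub_nonneg.2 h1),
    mul_nonneg hσ (sub_nonneg.2 h2), sq_nonneg s, sq_nonneg (s - 1 / 5)]

theorem elowx_i3 (H s σ : ℝ) (h1 : (33 / 20) ≤ H) (h2 : H ≤ (17 / 10)) (hs : 0 ≤ s) (hσ : 0 ≤ σ)
    (hσ1 : σ ≤ 1) (h : s ≤ σ * (s / 2 - 1 / 2 + H / 3)) :
    ((4269 / 500) + (41 / 10) * (H - (33 / 20))) * (s + (1 - σ ^ 2) / 16 + (29 / 100) ^ 2) ≤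
      2 * (29 / 100) * (156 / 25 * H - H ^ 2 - 21 / 4 + s * (63 / 8 + 9 / 8 * σ) + 9 / 4 * s ^ 2) := by
  nlinarith [mul_nonneg hs hσ, mul_nonneg hs (sub_nonneg.2 hσ1), mul_nonneg hσ (sub_nonneg.2 hσ1),
    mul_nonneg (sub_nonneg.2 h1) (sub_nonneg.2 h2), mul_nonneg hs (sub_nonneg.2 h1),
    mul_nonneg hs (sub_nonneg.2 h2), mul_nonneg hσ (sub_nonneg.2 h1),
    mul_nonneg hσ (sub_nonneg.2 h2), sq_nonneg s, sq_nonneg (s - 1 / 5)]

theorem elowx_i4 (H s σ : ℝ) (h1 : (17 / 10) ≤ H) (h2 : H ≤ (87 / 50)) (hs : 0 ≤ s) (hσ : 0 ≤ σ)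
    (hσ1 : σ ≤ 1) (h : s ≤ σ * (s / 2 - 1 / 2 + H / 3)) :
    ((9037 / 1000) + (41 / 10) * (H - (17 / 10))) * (s + (1 - σ ^ 2) / 16 + (31 / 100) ^ 2) ≤
      2 * (31 / 100) * (156 / 25 * H - H ^ 2 - 21 / 4 + s * (63 / 8 + 9 / 8 * σ) + 9 / 4 * s ^ 2) := by
  nlinarith [mul_nonneg hs hσ, mul_nonneg hs (sub_nonneg.2 hσ1), mul_nonneg hσ (sub_nonneg.2 hσ1),
    mul_nonneg (sub_nonneg.2 h1) (sub_nonneg.2 h2), mul_nonneg hs (sub_nonneg.2 h1),
    mul_nonneg hs (sub_nonneg.2 h2), mul_nonneg hσ (sub_nonneg.2 h1),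
    mul_nonneg hσ (sub_nonneg.2 h2), sq_nonneg s, sq_nonneg (s - 1 / 5)]

theorem elowx_i5 (H s σ : ℝ) (h1 : (87 / 50) ≤ H) (h2 : H ≤ (89 / 50)) (hs : 0 ≤ s) (hσ : 0 ≤ σ)
    (hσ1 : σ ≤ 1) (h : s ≤ σ * (s / 2 - 1 / 2 + H / 3)) :
    ((9203 / 1000) + 4 * (H - (87 / 50))) * (s + (1 - σ ^ 2) / 16 + (33 / 100) ^ 2) ≤
      2 * (33 / 100) * (156 / 25 * H - H ^ 2 - 21 / 4 + s * (63 / 8 + 9 / 8 * σ) + 9 / 4 * s ^ 2) := by
  nlinarith [mul_nonneg hs hσ, mul_nonneg hs (sub_nonneg.2 hσ1), mul_nonneg hσ (sub_nonneg.2 hσ1),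
    mul_nonneg (sub_nonneg.2 h1) (sub_nonneg.2 h2), mul_nonneg hs (sub_nonneg.2 h1),
    mul_nonneg hs (sub_nonneg.2 h2), mul_nonneg hσ (sub_nonneg.2 h1),
    mul_nonneg hσ (sub_nonneg.2 h2), sq_nonneg s, sq_nonneg (s - 1 / 5)]

theorem elowx_i6 (H s σ : ℝ) (h1 : (89 / 50) ≤ H) (h2 : H ≤ (9 / 5)) (hs : 0 ≤ s) (hσ : 0 ≤ σ)
    (hσ1 : σ ≤ 1) (h : s ≤ σ * (s / 2 - 1 / 2 + H / 3)) :
    ((1889 / 200) + 4 * (H - (89 / 50))) * (s + (1 - σ ^ 2) / 16 + (17 / 50) ^ 2) ≤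
      2 * (17 / 50) * (156 / 25 * H - H ^ 2 - 21 / 4 + s * (63 / 8 + 9 / 8 * σ) + 9 / 4 * s ^ 2) := by
  nlinarith [mul_nonneg hs hσ, mul_nonneg hs (sub_nonneg.2 hσ1), mul_nonneg hσ (sub_nonneg.2 hσ1),
    mul_nonneg (sub_nonneg.2 h1) (sub_nonneg.2 h2), mul_nonneg hs (sub_nonneg.2 h1),
    mul_nonneg hs (sub_nonneg.2 h2), mul_nonneg hσ (sub_nonneg.2 h1),
    mul_nonneg hσ (sub_nonneg.2 h2), sq_nonneg s, sq_nonneg (s - 1 / 5)]

theorem elowx_i7 (H s σ : ℝ) (h1 : (9 / 5) ≤ H) (h2 : H ≤ (37 / 20)) (hs : 0 ≤ s) (hσ : 0 ≤ σ)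
    (hσ1 : σ ≤ 1) (h : s ≤ σ * (s / 2 - 1 / 2 + H / 3)) :
    ((1903 / 200) + (16 / 5) * (H - (9 / 5))) * (s + (1 - σ ^ 2) / 16 + (9 / 25) ^ 2) ≤
      2 * (9 / 25) * (156 / 25 * H - H ^ 2 - 21 / 4 + s * (63 / 8 + 9 / 8 * σ) + 9 / 4 * s ^ 2) := by
  nlinarith [mul_nonneg hs hσ, mul_nonneg hs (sub_nonneg.2 hσ1), mul_nonneg hσ (sub_nonneg.2 hσ1),
    mul_nonneg (sub_nonneg.2 h1) (sub_nonneg.2 h2), mul_nonneg hs (sub_nonneg.2 h1),
    mul_nonneg hs (sub_nonneg.2 h2), mul_nonneg hσ (sub_nonneg.2 h1),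
    mul_nonneg hσ (sub_nonneg.2 h2), sq_nonneg s, sq_nonneg (s - 1 / 5)]

theorem elowx_i8 (H s σ : ℝ) (h1 : (37 / 20) ≤ H) (h2 : H ≤ (19 / 10)) (hs : 0 ≤ s) (hσ : 0 ≤ σ)
    (hσ1 : σ ≤ 1) (h : s ≤ σ * (s / 2 - 1 / 2 + H / 3)) :
    ((387 / 40) + (31 / 10) * (H - (37 / 20))) * (s + (1 - σ ^ 2) / 16 + (19 / 50) ^ 2) ≤
      2 * (19 / 50) * (156 / 25 * H - H ^ 2 - 21 / 4 + s * (63 / 8 + 9 / 8 * σ) + 9 / 4 * s ^ 2) := by
  nlinarith [mul_nonneg hs hσ, mul_nonneg hs (sub_nonneg.2 hσ1), mul_nonneg hσ (sub_nonneg.2 hσ1),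
    mul_nonneg (sub_nonneg.2 h1) (sub_nonneg.2 h2), mul_nonneg hs (sub_nonneg.2 h1),
    mul_nonneg hs (sub_nonneg.2 h2), mul_nonneg hσ (sub_nonneg.2 h1),
    mul_nonneg hσ (sub_nonneg.2 h2), sq_nonneg s, sq_nonneg (s - 1 / 5)]

theorem elowx_i9 (H s σ : ℝ) (h1 : (19 / 10) ≤ H) (h2 : H ≤ (39 / 20)) (hs : 0 ≤ s) (hσ : 0 ≤ σ)
    (hσ1 : σ ≤ 1) (h : s ≤ σ * (s / 2 - 1 / 2 + H / 3)) :
    ((9829 / 1000) + 3 * (H - (19 / 10))) * (s + (1 - σ ^ 2) / 16 + (2 / 5) ^ 2) ≤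
      2 * (2 / 5) * (156 / 25 * H - H ^ 2 - 21 / 4 + s * (63 / 8 + 9 / 8 * σ) + 9 / 4 * s ^ 2) := by
  nlinarith [mul_nonneg hs hσ, mul_nonneg hs (sub_nonneg.2 hσ1), mul_nonneg hσ (sub_nonneg.2 hσ1),
    mul_nonneg (sub_nonneg.2 h1) (sub_nonneg.2 h2), mul_nonneg hs (sub_nonneg.2 h1),
    mul_nonneg hs (sub_nonneg.2 h2), mul_nonneg hσ (sub_nonneg.2 h1),
    mul_nonneg hσ (sub_nonneg.2 h2), sq_nonneg s, sq_nonneg (s - 1 / 5)]

theorem elowx_i10 (H s σ : ℝ) (h1 : (39 / 20) ≤ H) (h2 : H ≤ 2) (hs : 0 ≤ s) (hσ : 0 ≤ σ)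
    (hσ1 : σ ≤ 1) (h : s ≤ σ * (s / 2 - 1 / 2 + H / 3)) :
    ((4989 / 500) + (14 / 5) * (H - (39 / 20))) * (s + (1 - σ ^ 2) / 16 + (21 / 50) ^ 2) ≤
      2 * (21 / 50) * (156 / 25 * H - H ^ 2 - 21 / 4 + s * (63 / 8 + 9 / 8 * σ) + 9 / 4 * s ^ 2) := by
  nlinarith [mul_nonneg hs hσ, mul_nonneg hs (sub_nonneg.2 hσ1), mul_nonneg hσ (sub_nonneg.2 hσ1),
    mul_nonneg (sub_nonneg.2 h1) (sub_nonneg.2 h2), mul_nonneg hs (sub_nonneg.2 h1),
    mul_nonneg hs (sub_nonneg.2 h2), mul_nonneg hσ (sub_nonneg.2 h1),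
    mul_nonneg hσ (sub_nonneg.2 h2), sq_nonneg s, sq_nonneg (s - 1 / 5)]

theorem elowx_i11 (H s σ : ℝ) (h1 : 2 ≤ H) (h2 : H ≤ (21 / 10)) (hs : 0 ≤ s) (hσ : 0 ≤ σ)
    (hσ1 : σ ≤ 1) (h : s ≤ σ * (s / 2 - 1 / 2 + H / 3)) :
    ((10121 / 1000) + (13 / 5) * (H - 2)) * (s + (1 - σ ^ 2) / 16 + (11 / 25) ^ 2) ≤
      2 * (11 / 25) * (156 / 25 * H - H ^ 2 - 21 / 4 + s * (63 / 8 + 9 / 8 * σ) + 9 / 4 * s ^ 2) := by
  nlinarith [mul_nonneg hs hσ, mul_nonneg hs (sub_nonneg.2 hσ1), mul_nonneg hσ (sub_nonneg.2 hσ1),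
    mul_nonneg (sub_nonneg.2 h1) (sub_nonneg.2 h2), mul_nonneg hs (sub_nonneg.2 h1),
    mul_nonneg hs (sub_nonneg.2 h2), mul_nonneg hσ (sub_nonneg.2 h1),
    mul_nonneg hσ (sub_nonneg.2 h2), sq_nonneg s, sq_nonneg (s - 1 / 5)]

theorem elowx_i12 (H s σ : ℝ) (h1 : (21 / 10) ≤ H) (h2 : H ≤ (11 / 5)) (hs : 0 ≤ s) (hσ : 0 ≤ σ)
    (hσ1 : σ ≤ 1) (h : s ≤ σ * (s / 2 - 1 / 2 + H / 3)) :
    ((10381 / 1000) + (23 / 10) * (H - (21 / 10))) * (s + (1 - σ ^ 2) / 16 + (47 / 100) ^ 2) ≤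
      2 * (47 / 100) * (156 / 25 * H - H ^ 2 - 21 / 4 + s * (63 / 8 + 9 / 8 * σ) + 9 / 4 * s ^ 2) := by
  nlinarith [mul_nonneg hs hσ, mul_nonneg hs (sub_nonneg.2 hσ1), mul_nonneg hσ (sub_nonneg.2 hσ1),
    mul_nonneg (sub_nonneg.2 h1) (sub_nonneg.2 h2), mul_nonneg hs (sub_nonneg.2 h1),
    mul_nonneg hs (sub_nonneg.2 h2), mul_nonneg hσ (sub_nonneg.2 h1),
    mul_nonneg hσ (sub_nonneg.2 h2), sq_nonneg s, sq_nonneg (s - 1 / 5)]

theorem elowx_i13 (H s σ : ℝ) (h1 : (11 / 5) ≤ H) (h2 : H ≤ (47 / 20)) (hs : 0 ≤ s) (hσ : 0 ≤ σ)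
    (hσ1 : σ ≤ 1) (h : s ≤ σ * (s / 2 - 1 / 2 + H / 3)) :
    ((1067 / 100) + (19 / 10) * (H - (11 / 5))) * (s + (1 - σ ^ 2) / 16 + (49 / 100) ^ 2) ≤
      2 * (49 / 100) * (156 / 25 * H - H ^ 2 - 21 / 4 + s * (63 / 8 + 9 / 8 * σ) + 9 / 4 * s ^ 2) := by
  nlinarith [mul_nonneg hs hσ, mul_nonneg hs (sub_nonneg.2 hσ1), mul_nonneg hσ (sub_nonneg.2 hσ1),
    mul_nonneg (sub_nonneg.2 h1) (sub_nonneg.2 h2), mul_nonneg hs (sub_nonneg.2 h1),
    mul_nonneg hs (sub_nonneg.2 h2), mul_nonneg hσ (sub_nonneg.2 h1),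
    mul_nonneg hσ (sub_nonneg.2 h2), sq_nonneg s, sq_nonneg (s - 1 / 5)]

theorem elowx_i14 (H s σ : ℝ) (h1 : (47 / 20) ≤ H) (h2 : H ≤ (5 / 2)) (hs : 0 ≤ s) (hσ : 0 ≤ σ)
    (hσ1 : σ ≤ 1) (h : s ≤ σ * (s / 2 - 1 / 2 + H / 3)) :
    ((274 / 25) + (7 / 5) * (H - (47 / 20))) * (s + (1 - σ ^ 2) / 16 + (13 / 25) ^ 2) ≤
      2 * (13 / 25) * (156 / 25 * H - H ^ 2 - 21 / 4 + s * (63 / 8 + 9 / 8 * σ) + 9 / 4 * s ^ 2) := by
  nlinarith [mul_nonneg hs hσ, mul_nonneg hs (sub_nonneg.2 hσ1), mul_nonneg hσ (sub_nonneg.2 hσ1),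
    mul_nonneg (sub_nonneg.2 h1) (sub_nonneg.2 h2), mul_nonneg hs (sub_nonneg.2 h1),
    mul_nonneg hs (sub_nonneg.2 h2), mul_nonneg hσ (sub_nonneg.2 h1),
    mul_nonneg hσ (sub_nonneg.2 h2), sq_nonneg s, sq_nonneg (s - 1 / 5)]

theorem elowx_i15 (H s σ : ℝ) (h1 : (5 / 2) ≤ H) (h2 : H ≤ (53 / 20)) (hs : 0 ≤ s) (hσ : 0 ≤ σ)
    (hσ1 : σ ≤ 1) (h : s ≤ σ * (s / 2 - 1 / 2 + H / 3)) :
    ((1117 / 100) + (9 / 10) * (H - (5 / 2))) * (s + (1 - σ ^ 2) / 16 + (27 / 50) ^ 2) ≤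
      2 * (27 / 50) * (156 / 25 * H - H ^ 2 - 21 / 4 + s * (63 / 8 + 9 / 8 * σ) + 9 / 4 * s ^ 2) := by
  nlinarith [mul_nonneg hs hσ, mul_nonneg hs (sub_nonneg.2 hσ1), mul_nonneg hσ (sub_nonneg.2 hσ1),
    mul_nonneg (sub_nonneg.2 h1) (sub_nonneg.2 h2), mul_nonneg hs (sub_nonneg.2 h1),
    mul_nonneg hs (sub_nonneg.2 h2), mul_nonneg hσ (sub_nonneg.2 h1),
    mul_nonneg hσ (sub_nonneg.2 h2), sq_nonneg s, sq_nonneg (s - 1 / 5)]

theorem elowx_i16 (H s σ : ℝ) (h1 : (53 / 20) ≤ H) (h2 : H ≤ (14 / 5)) (hs : 0 ≤ s) (hσ : 0 ≤ σ)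
    (hσ1 : σ ≤ 1) (h : s ≤ σ * (s / 2 - 1 / 2 + H / 3)) :
    ((113 / 10) + (3 / 10) * (H - (53 / 20))) * (s + (1 - σ ^ 2) / 16 + (11 / 20) ^ 2) ≤
      2 * (11 / 20) * (156 / 25 * H - H ^ 2 - 21 / 4 + s * (63 / 8 + 9 / 8 * σ) + 9 / 4 * s ^ 2) := by
  nlinarith [mul_nonneg hs hσ, mul_nonneg hs (sub_nonneg.2 hσ1), mul_nonneg hσ (sub_nonneg.2 hσ1),
    mul_nonneg (sub_nonneg.2 h1) (sub_nonneg.2 h2), mul_nonneg hs (sub_nonneg.2 h1),
    mul_nonneg hs (sub_nonneg.2 h2), mul_nonneg hσ (sub_nonneg.2 h1),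
    mul_nonneg hσ (sub_nonneg.2 h2), sq_nonneg s, sq_nonneg (s - 1 / 5)]

theorem elowx_i17 (H s σ : ℝ) (h1 : (14 / 5) ≤ H) (h2 : H ≤ 3) (hs : 0 ≤ s) (hσ : 0 ≤ σ)
    (hσ1 : σ ≤ 1) (h : s ≤ σ * (s / 2 - 1 / 2 + H / 3)) :
    ((1169 / 100) + (-1 / 2) * (H - (14 / 5))) * (s + (1 - σ ^ 2) / 16 + (14 / 25) ^ 2) ≤
      2 * (14 / 25) * (156 / 25 * H - H ^ 2 - 21 / 4 + s * (63 / 8 + 9 / 8 * σ) + 9 / 4 * s ^ 2) := by
  nlinarith [mul_nonneg hs hσ, mul_nonneg hs (sub_nonneg.2 hσ1), mul_nonneg hσ (sub_nonneg.2 hσ1),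
    mul_nonneg (sub_nonneg.2 h1) (sub_nonneg.2 h2), mul_nonneg hs (sub_nonneg.2 h1),
    mul_nonneg hs (sub_nonneg.2 h2), mul_nonneg hσ (sub_nonneg.2 h1),
    mul_nonneg hσ (sub_nonneg.2 h2), sq_nonneg s, sq_nonneg (s - 1 / 5)]

theorem elowx_i18 (H s σ : ℝ) (h1 : 3 ≤ H) (h2 : H ≤ (63 / 20)) (hs : 0 ≤ s) (hσ : 0 ≤ σ)
    (hσ1 : σ ≤ 1) (h : s ≤ σ * (s / 2 - 1 / 2 + H / 3)) :
    ((579 / 50) + (-7 / 5) * (H - 3)) * (s + (1 - σ ^ 2) / 16 + (57 / 100) ^ 2) ≤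
      2 * (57 / 100) * (156 / 25 * H - H ^ 2 - 21 / 4 + s * (63 / 8 + 9 / 8 * σ) + 9 / 4 * s ^ 2) := by
  nlinarith [mul_nonneg hs hσ, mul_nonneg hs (sub_nonneg.2 hσ1), mul_nonneg hσ (sub_nonneg.2 hσ1),
    mul_nonneg (sub_nonneg.2 h1) (sub_nonneg.2 h2), mul_nonneg hs (sub_nonneg.2 h1),
    mul_nonneg hs (sub_nonneg.2 h2), mul_nonneg hσ (sub_nonneg.2 h1),
    mul_nonneg hσ (sub_nonneg.2 h2), sq_nonneg s, sq_nonneg (s - 1 / 5)]

theorem elowx_i19 (H s σ : ℝ) (h1 : (63 / 20) ≤ H) (h2 : H ≤ (33 / 10)) (hs : 0 ≤ s) (hσ : 0 ≤ σ)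
    (hσ1 : σ ≤ 1) (h : s ≤ σ * (s / 2 - 1 / 2 + H / 3)) :
    ((1137 / 100) + (-12 / 5) * (H - (63 / 20))) * (s + (1 - σ ^ 2) / 16 + (29 / 50) ^ 2) ≤
      2 * (29 / 50) * (156 / 25 * H - H ^ 2 - 21 / 4 + s * (63 / 8 + 9 / 8 * σ) + 9 / 4 * s ^ 2) := by
  nlinarith [mul_nonneg hs hσ, mul_nonneg hs (sub_nonneg.2 hσ1), mul_nonneg hσ (sub_nonneg.2 hσ1),
    mul_nonneg (sub_nonneg.2 h1) (sub_nonneg.2 h2), mul_nonneg hs (sub_nonneg.2 h1),
    mul_nonneg hs (sub_nonneg.2 h2), mul_nonneg hσ (sub_nonneg.2 h1),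
    mul_nonneg hσ (sub_nonneg.2 h2), sq_nonneg s, sq_nonneg (s - 1 / 5)]

theorem elowx_i20 (H s σ : ℝ) (h1 : (33 / 10) ≤ H) (h2 : H ≤ (18 / 5)) (hs : 0 ≤ s) (hσ : 0 ≤ σ)
    (hσ1 : σ ≤ 1) (h : s ≤ σ * (s / 2 - 1 / 2 + H / 3)) :
    ((1153 / 100) + (-43 / 10) * (H - (33 / 10))) * (s + (1 - σ ^ 2) / 16 + (29 / 50) ^ 2) ≤
      2 * (29 / 50) * (156 / 25 * H - H ^ 2 - 21 / 4 + s * (63 / 8 + 9 / 8 * σ) + 9 / 4 * s ^ 2) := by
  nlinarith [mul_nonneg hs hσ, mul_nonneg hs (sub_nonneg.2 hσ1), mul_nonneg hσ (sub_nonneg.2 hσ1),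
    mul_nonneg (sub_nonneg.2 h1) (sub_nonneg.2 h2), mul_nonneg hs (sub_nonneg.2 h1),
    mul_nonneg hs (sub_nonneg.2 h2), mul_nonneg hσ (sub_nonneg.2 h1),
    mul_nonneg hσ (sub_nonneg.2 h2), sq_nonneg s, sq_nonneg (s - 1 / 5)]

theorem elowx_i21 (H s σ : ℝ) (h1 : (18 / 5) ≤ H) (h2 : H ≤ (21 / 5)) (hs : 0 ≤ s) (hσ : 0 ≤ σ)
    (hσ1 : σ ≤ 1) (h : s ≤ σ * (s / 2 - 1 / 2 + H / 3)) :
    ((529 / 50) + (-19 / 2) * (H - (18 / 5))) * (s + (1 - σ ^ 2) / 16 + (29 / 50) ^ 2) ≤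
      2 * (29 / 50) * (156 / 25 * H - H ^ 2 - 21 / 4 + s * (63 / 8 + 9 / 8 * σ) + 9 / 4 * s ^ 2) := by
  nlinarith [mul_nonneg hs hσ, mul_nonneg hs (sub_nonneg.2 hσ1), mul_nonneg hσ (sub_nonneg.2 hσ1),
    mul_nonneg (sub_nonneg.2 h1) (sub_nonneg.2 h2), mul_nonneg hs (sub_nonneg.2 h1),
    mul_nonneg hs (sub_nonneg.2 h2), mul_nonneg hσ (sub_nonneg.2 h1),
    mul_nonneg hσ (sub_nonneg.2 h2), sq_nonneg s, sq_nonneg (s - 1 / 5)]

/-- the final step on one interval -/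
theorem elowx_core {H N La Lam R μ g w X : ℝ} (hH : 0 < H) (hg : 0 < g) (hμ : 0 < μ) (hR : 0 ≤ R)
    (hLa : 0 < La) (hLL : La ≤ Lam) (hN : R * (Lam + μ ^ 2) ≤ 2 * μ * N)
    (hw : (375 / 2 - w) * (144 * H ^ 2) ≤ 50 * g * R ^ 2) (hX : N ≤ 12 * H * X) :
    (375 / 2 - w) * La ≤ 50 * g * X ^ 2 := by
  have hLam : 0 < Lam := hLa.trans_le hLL
  have h1 : 0 ≤ R * (Lam + μ ^ 2) := by positivity
  have h2 : (R * (Lam + μ ^ 2)) ^ 2 ≤ (2 * μ * (12 * H * X)) ^ 2 := by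
    have h3 : 2 * μ * N ≤ 2 * μ * (12 * H * X) := mul_le_mul_of_nonneg_left hX (by positivity)
    exact pow_le_pow_left₀ h1 (hN.trans h3) 2
  have h4 : 4 * μ ^ 2 * Lam ≤ (Lam + μ ^ 2) ^ 2 := by nlinarith [sq_nonneg (Lam - μ ^ 2)]
  have h5 : R ^ 2 * (4 * μ ^ 2 * Lam) ≤ (2 * μ * (12 * H * X)) ^ 2 := by
    refine le_trans ?_ h2
    rw [mul_pow]
    exact mul_le_mul_of_nonneg_left h4 (sq_nonneg R)
  have h6 : (4 * μ ^ 2) * (R ^ 2 * Lam) ≤ (4 * μ ^ 2) * ((144 * H ^ 2) * X ^ 2) := by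
    have e1 : (4 * μ ^ 2) * (R ^ 2 * Lam) = R ^ 2 * (4 * μ ^ 2 * Lam) := by ring
    have e2 : (4 * μ ^ 2) * ((144 * H ^ 2) * X ^ 2) = (2 * μ * (12 * H * X)) ^ 2 := by ring
    rw [e1, e2]
    exact h5
  have h7 : R ^ 2 * Lam ≤ (144 * H ^ 2) * X ^ 2 := le_of_mul_le_mul_left h6 (by positivity)
  have h8 : (144 * H ^ 2) * ((375 / 2 - w) * La) ≤ (144 * H ^ 2) * (50 * g * X ^ 2) := by
    calc (144 * H ^ 2) * ((375 / 2 - w) * La) = ((375 / 2 - w) * (144 * H ^ 2)) * La := by ring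
      _ ≤ (50 * g * R ^ 2) * La := mul_le_mul_of_nonneg_right hw hLa.le
      _ ≤ (50 * g * R ^ 2) * Lam := mul_le_mul_of_nonneg_left hLL (by positivity)
      _ = (50 * g) * (R ^ 2 * Lam) := by ring
      _ ≤ (50 * g) * ((144 * H ^ 2) * X ^ 2) := mul_le_mul_of_nonneg_left h7 (by positivity)
      _ = (144 * H ^ 2) * (50 * g * X ^ 2) := by ring
  exact le_of_mul_le_mul_left h8 (by positivity)

theorem elowx_w0 (H : ℝ) (h1 : (3 / 2) ≤ H) (h2 : H ≤ (31 / 20)) :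
    (375 / 2 - ((1451 / 50 * H + 263 / 20 * H ^ 2) * (77 / 100 - 1 / H))) * (144 * H ^ 2) ≤
      50 * 24 * ((3487 / 500) + (19 / 5) * (H - (3 / 2))) ^ 2 := by
  have hH : 0 < H := by linarith
  have e : (1451 / 50 * H + 263 / 20 * H ^ 2) * (77 / 100 - 1 / H) =
      (1451 / 50 + 263 / 20 * H) * (77 / 100 * H - 1) := by
    field_simp
  rw [e]
  obtain ⟨x, rfl⟩ : ∃ x, H = (3 / 2) + x := ⟨H - (3 / 2), by ring⟩
  have hx : 0 ≤ x := by linarith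
  have hx1 : x ≤ (1 / 20) := by linarith
  nlinarith [mul_nonneg hx (sub_nonneg.2 hx1), mul_nonneg (mul_nonneg hx hx) (sub_nonneg.2 hx1),
    mul_nonneg (mul_nonneg hx (mul_nonneg hx hx)) (sub_nonneg.2 hx1)]

theorem elowx_w1 (H : ℝ) (h1 : (31 / 20) ≤ H) (h2 : H ≤ (8 / 5)) :
    (375 / 2 - ((1451 / 50 * H + 263 / 20 * H ^ 2) * (77 / 100 - 1 / H))) * (144 * H ^ 2) ≤
      50 * (217 / 10) * ((3767 / 500) + 4 * (H - (31 / 20))) ^ 2 := by
  have hH : 0 < H := by linarith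
  have e : (1451 / 50 * H + 263 / 20 * H ^ 2) * (77 / 100 - 1 / H) =
      (1451 / 50 + 263 / 20 * H) * (77 / 100 * H - 1) := by
    field_simp
  rw [e]
  obtain ⟨x, rfl⟩ : ∃ x, H = (31 / 20) + x := ⟨H - (31 / 20), by ring⟩
  have hx : 0 ≤ x := by linarith
  have hx1 : x ≤ (1 / 20) := by linarith
  nlinarith [mul_nonneg hx (sub_nonneg.2 hx1), mul_nonneg (mul_nonneg hx hx) (sub_nonneg.2 hx1),
    mul_nonneg (mul_nonneg hx (mul_nonneg hx hx)) (sub_nonneg.2 hx1)]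

theorem elowx_w2 (H : ℝ) (h1 : (8 / 5) ≤ H) (h2 : H ≤ (33 / 20)) :
    (375 / 2 - ((1451 / 50 * H + 263 / 20 * H ^ 2) * (77 / 100 - 1 / H))) * (144 * H ^ 2) ≤
      50 * (187 / 10) * ((8329 / 1000) + (21 / 5) * (H - (8 / 5))) ^ 2 := by
  have hH : 0 < H := by linarith
  have e : (1451 / 50 * H + 263 / 20 * H ^ 2) * (77 / 100 - 1 / H) =
      (1451 / 50 + 263 / 20 * H) * (77 / 100 * H - 1) := by
    field_simp
  rw [e]
  obtain ⟨x, rfl⟩ : ∃ x, H = (8 / 5) + x := ⟨H - (8 / 5), by ring⟩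
  have hx : 0 ≤ x := by linarith
  have hx1 : x ≤ (1 / 20) := by linarith
  nlinarith [mul_nonneg hx (sub_nonneg.2 hx1), mul_nonneg (mul_nonneg hx hx) (sub_nonneg.2 hx1),
    mul_nonneg (mul_nonneg hx (mul_nonneg hx hx)) (sub_nonneg.2 hx1)]

theorem elowx_w3 (H : ℝ) (h1 : (33 / 20) ≤ H) (h2 : H ≤ (17 / 10)) :
    (375 / 2 - ((1451 / 50 * H + 263 / 20 * H ^ 2) * (77 / 100 - 1 / H))) * (144 * H ^ 2) ≤
      50 * (187 / 10) * ((4269 / 500) + (41 / 10) * (H - (33 / 20))) ^ 2 := by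
  have hH : 0 < H := by linarith
  have e : (1451 / 50 * H + 263 / 20 * H ^ 2) * (77 / 100 - 1 / H) =
      (1451 / 50 + 263 / 20 * H) * (77 / 100 * H - 1) := by
    field_simp
  rw [e]
  obtain ⟨x, rfl⟩ : ∃ x, H = (33 / 20) + x := ⟨H - (33 / 20), by ring⟩
  have hx : 0 ≤ x := by linarith
  have hx1 : x ≤ (1 / 20) := by linarith
  nlinarith [mul_nonneg hx (sub_nonneg.2 hx1), mul_nonneg (mul_nonneg hx hx) (sub_nonneg.2 hx1),
    mul_nonneg (mul_nonneg hx (mul_nonneg hx hx)) (sub_nonneg.2 hx1)]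

theorem elowx_w4 (H : ℝ) (h1 : (17 / 10) ≤ H) (h2 : H ≤ (87 / 50)) :
    (375 / 2 - ((1451 / 50 * H + 263 / 20 * H ^ 2) * (77 / 100 - 1 / H))) * (144 * H ^ 2) ≤
      50 * (35 / 2) * ((9037 / 1000) + (41 / 10) * (H - (17 / 10))) ^ 2 := by
  have hH : 0 < H := by linarith
  have e : (1451 / 50 * H + 263 / 20 * H ^ 2) * (77 / 100 - 1 / H) =
      (1451 / 50 + 263 / 20 * H) * (77 / 100 * H - 1) := by
    field_simp
  rw [e]
  obtain ⟨x, rfl⟩ : ∃ x, H = (17 / 10) + x := ⟨H - (17 / 10), by ring⟩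
  have hx : 0 ≤ x := by linarith
  have hx1 : x ≤ (1 / 25) := by linarith
  nlinarith [mul_nonneg hx (sub_nonneg.2 hx1), mul_nonneg (mul_nonneg hx hx) (sub_nonneg.2 hx1),
    mul_nonneg (mul_nonneg hx (mul_nonneg hx hx)) (sub_nonneg.2 hx1)]

theorem elowx_w5 (H : ℝ) (h1 : (87 / 50) ≤ H) (h2 : H ≤ (89 / 50)) :
    (375 / 2 - ((1451 / 50 * H + 263 / 20 * H ^ 2) * (77 / 100 - 1 / H))) * (144 * H ^ 2) ≤
      50 * (35 / 2) * ((9203 / 1000) + 4 * (H - (87 / 50))) ^ 2 := by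
  have hH : 0 < H := by linarith
  have e : (1451 / 50 * H + 263 / 20 * H ^ 2) * (77 / 100 - 1 / H) =
      (1451 / 50 + 263 / 20 * H) * (77 / 100 * H - 1) := by
    field_simp
  rw [e]
  obtain ⟨x, rfl⟩ : ∃ x, H = (87 / 50) + x := ⟨H - (87 / 50), by ring⟩
  have hx : 0 ≤ x := by linarith
  have hx1 : x ≤ (1 / 25) := by linarith
  nlinarith [mul_nonneg hx (sub_nonneg.2 hx1), mul_nonneg (mul_nonneg hx hx) (sub_nonneg.2 hx1),
    mul_nonneg (mul_nonneg hx (mul_nonneg hx hx)) (sub_nonneg.2 hx1)]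

theorem elowx_w6 (H : ℝ) (h1 : (89 / 50) ≤ H) (h2 : H ≤ (9 / 5)) :
    (375 / 2 - ((1451 / 50 * H + 263 / 20 * H ^ 2) * (77 / 100 - 1 / H))) * (144 * H ^ 2) ≤
      50 * (86 / 5) * ((1889 / 200) + 4 * (H - (89 / 50))) ^ 2 := by
  have hH : 0 < H := by linarith
  have e : (1451 / 50 * H + 263 / 20 * H ^ 2) * (77 / 100 - 1 / H) =
      (1451 / 50 + 263 / 20 * H) * (77 / 100 * H - 1) := by
    field_simp
  rw [e]
  obtain ⟨x, rfl⟩ : ∃ x, H = (89 / 50) + x := ⟨H - (89 / 50), by ring⟩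
  have hx : 0 ≤ x := by linarith
  have hx1 : x ≤ (1 / 50) := by linarith
  nlinarith [mul_nonneg hx (sub_nonneg.2 hx1), mul_nonneg (mul_nonneg hx hx) (sub_nonneg.2 hx1),
    mul_nonneg (mul_nonneg hx (mul_nonneg hx hx)) (sub_nonneg.2 hx1)]

theorem elowx_w7 (H : ℝ) (h1 : (9 / 5) ≤ H) (h2 : H ≤ (37 / 20)) :
    (375 / 2 - (6999 / 100 * H - 5263 / 50)) * (144 * H ^ 2) ≤
      50 * (86 / 5) * ((1903 / 200) + (16 / 5) * (H - (9 / 5))) ^ 2 := by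
  obtain ⟨x, rfl⟩ : ∃ x, H = (9 / 5) + x := ⟨H - (9 / 5), by ring⟩
  have hx : 0 ≤ x := by linarith
  have hx1 : x ≤ (1 / 20) := by linarith
  nlinarith [mul_nonneg hx (sub_nonneg.2 hx1), mul_nonneg (mul_nonneg hx hx) (sub_nonneg.2 hx1),
    mul_nonneg hx (sq_nonneg (x - (1 / 40))), sq_nonneg (x - (1 / 40))]

theorem elowx_w8 (H : ℝ) (h1 : (37 / 20) ≤ H) (h2 : H ≤ (19 / 10)) :
    (375 / 2 - (6999 / 100 * H - 5263 / 50)) * (144 * H ^ 2) ≤
      50 * (86 / 5) * ((387 / 40) + (31 / 10) * (H - (37 / 20))) ^ 2 := by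
  obtain ⟨x, rfl⟩ : ∃ x, H = (37 / 20) + x := ⟨H - (37 / 20), by ring⟩
  have hx : 0 ≤ x := by linarith
  have hx1 : x ≤ (1 / 20) := by linarith
  nlinarith [mul_nonneg hx (sub_nonneg.2 hx1), mul_nonneg (mul_nonneg hx hx) (sub_nonneg.2 hx1),
    mul_nonneg hx (sq_nonneg (x - (1 / 40))), sq_nonneg (x - (1 / 40))]

theorem elowx_w9 (H : ℝ) (h1 : (19 / 10) ≤ H) (h2 : H ≤ (39 / 20)) :
    (375 / 2 - (6999 / 100 * H - 5263 / 50)) * (144 * H ^ 2) ≤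
      50 * (86 / 5) * ((9829 / 1000) + 3 * (H - (19 / 10))) ^ 2 := by
  obtain ⟨x, rfl⟩ : ∃ x, H = (19 / 10) + x := ⟨H - (19 / 10), by ring⟩
  have hx : 0 ≤ x := by linarith
  have hx1 : x ≤ (1 / 20) := by linarith
  nlinarith [mul_nonneg hx (sub_nonneg.2 hx1), mul_nonneg (mul_nonneg hx hx) (sub_nonneg.2 hx1),
    mul_nonneg hx (sq_nonneg (x - (1 / 40))), sq_nonneg (x - (1 / 40))]

theorem elowx_w10 (H : ℝ) (h1 : (39 / 20) ≤ H) (h2 : H ≤ 2) :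
    (375 / 2 - (6999 / 100 * H - 5263 / 50)) * (144 * H ^ 2) ≤
      50 * (86 / 5) * ((4989 / 500) + (14 / 5) * (H - (39 / 20))) ^ 2 := by
  obtain ⟨x, rfl⟩ : ∃ x, H = (39 / 20) + x := ⟨H - (39 / 20), by ring⟩
  have hx : 0 ≤ x := by linarith
  have hx1 : x ≤ (1 / 20) := by linarith
  nlinarith [mul_nonneg hx (sub_nonneg.2 hx1), mul_nonneg (mul_nonneg hx hx) (sub_nonneg.2 hx1),
    mul_nonneg hx (sq_nonneg (x - (1 / 40))), sq_nonneg (x - (1 / 40))]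

theorem elowx_w11 (H : ℝ) (h1 : 2 ≤ H) (h2 : H ≤ (21 / 10)) :
    (375 / 2 - (6999 / 100 * H - 5263 / 50)) * (144 * H ^ 2) ≤
      50 * (86 / 5) * ((10121 / 1000) + (13 / 5) * (H - 2)) ^ 2 := by
  obtain ⟨x, rfl⟩ : ∃ x, H = 2 + x := ⟨H - 2, by ring⟩
  have hx : 0 ≤ x := by linarith
  have hx1 : x ≤ (1 / 10) := by linarith
  nlinarith [mul_nonneg hx (sub_nonneg.2 hx1), mul_nonneg (mul_nonneg hx hx) (sub_nonneg.2 hx1),
    mul_nonneg hx (sq_nonneg (x - (1 / 20))), sq_nonneg (x - (1 / 20))]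

theorem elowx_w12 (H : ℝ) (h1 : (21 / 10) ≤ H) (h2 : H ≤ (11 / 5)) :
    (375 / 2 - (6999 / 100 * H - 5263 / 50)) * (144 * H ^ 2) ≤
      50 * (86 / 5) * ((10381 / 1000) + (23 / 10) * (H - (21 / 10))) ^ 2 := by
  obtain ⟨x, rfl⟩ : ∃ x, H = (21 / 10) + x := ⟨H - (21 / 10), by ring⟩
  have hx : 0 ≤ x := by linarith
  have hx1 : x ≤ (1 / 10) := by linarith
  nlinarith [mul_nonneg hx (sub_nonneg.2 hx1), mul_nonneg (mul_nonneg hx hx) (sub_nonneg.2 hx1),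
    mul_nonneg hx (sq_nonneg (x - (1 / 20))), sq_nonneg (x - (1 / 20))]

theorem elowx_w13 (H : ℝ) (h1 : (11 / 5) ≤ H) (h2 : H ≤ (47 / 20)) :
    (375 / 2 - (6999 / 100 * H - 5263 / 50)) * (144 * H ^ 2) ≤
      50 * (86 / 5) * ((1067 / 100) + (19 / 10) * (H - (11 / 5))) ^ 2 := by
  obtain ⟨x, rfl⟩ : ∃ x, H = (11 / 5) + x := ⟨H - (11 / 5), by ring⟩
  have hx : 0 ≤ x := by linarith
  have hx1 : x ≤ (3 / 20) := by linarith
  nlinarith [mul_nonneg hx (sub_nonneg.2 hx1), mul_nonneg (mul_nonneg hx hx) (sub_nonneg.2 hx1),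
    mul_nonneg hx (sq_nonneg (x - (3 / 40))), sq_nonneg (x - (3 / 40))]

theorem elowx_w14 (H : ℝ) (h1 : (47 / 20) ≤ H) (h2 : H ≤ (5 / 2)) :
    (375 / 2 - (6999 / 100 * H - 5263 / 50)) * (144 * H ^ 2) ≤
      50 * (86 / 5) * ((274 / 25) + (7 / 5) * (H - (47 / 20))) ^ 2 := by
  obtain ⟨x, rfl⟩ : ∃ x, H = (47 / 20) + x := ⟨H - (47 / 20), by ring⟩
  have hx : 0 ≤ x := by linarith
  have hx1 : x ≤ (3 / 20) := by linarith
  nlinarith [mul_nonneg hx (sub_nonneg.2 hx1), mul_nonneg (mul_nonneg hx hx) (sub_nonneg.2 hx1),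
    mul_nonneg hx (sq_nonneg (x - (3 / 40))), sq_nonneg (x - (3 / 40))]

theorem elowx_w15 (H : ℝ) (h1 : (5 / 2) ≤ H) (h2 : H ≤ (53 / 20)) :
    (375 / 2 - (6999 / 100 * H - 5263 / 50)) * (144 * H ^ 2) ≤
      50 * (86 / 5) * ((1117 / 100) + (9 / 10) * (H - (5 / 2))) ^ 2 := by
  obtain ⟨x, rfl⟩ : ∃ x, H = (5 / 2) + x := ⟨H - (5 / 2), by ring⟩
  have hx : 0 ≤ x := by linarith
  have hx1 : x ≤ (3 / 20) := by linarith
  nlinarith [mul_nonneg hx (sub_nonneg.2 hx1), mul_nonneg (mul_nonneg hx hx) (sub_nonneg.2 hx1),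
    mul_nonneg hx (sq_nonneg (x - (3 / 40))), sq_nonneg (x - (3 / 40))]

theorem elowx_w16 (H : ℝ) (h1 : (53 / 20) ≤ H) (h2 : H ≤ (14 / 5)) :
    (375 / 2 - (6999 / 100 * H - 5263 / 50)) * (144 * H ^ 2) ≤
      50 * (86 / 5) * ((113 / 10) + (3 / 10) * (H - (53 / 20))) ^ 2 := by
  obtain ⟨x, rfl⟩ : ∃ x, H = (53 / 20) + x := ⟨H - (53 / 20), by ring⟩
  have hx : 0 ≤ x := by linarith
  have hx1 : x ≤ (3 / 20) := by linarith
  nlinarith [mul_nonneg hx (sub_nonneg.2 hx1), mul_nonneg (mul_nonneg hx hx) (sub_nonneg.2 hx1),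
    mul_nonneg hx (sq_nonneg (x - (3 / 40))), sq_nonneg (x - (3 / 40))]

theorem elowx_w17 (H : ℝ) (h1 : (14 / 5) ≤ H) (h2 : H ≤ 3) :
    (375 / 2 - (6999 / 100 * H - 5263 / 50)) * (144 * H ^ 2) ≤
      50 * (81 / 5) * ((1169 / 100) + (-1 / 2) * (H - (14 / 5))) ^ 2 := by
  obtain ⟨x, rfl⟩ : ∃ x, H = (14 / 5) + x := ⟨H - (14 / 5), by ring⟩
  have hx : 0 ≤ x := by linarith
  have hx1 : x ≤ (1 / 5) := by linarith
  nlinarith [mul_nonneg hx (sub_nonneg.2 hx1), mul_nonneg (mul_nonneg hx hx) (sub_nonneg.2 hx1),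
    mul_nonneg hx (sq_nonneg (x - (1 / 10))), sq_nonneg (x - (1 / 10))]

theorem elowx_w18 (H : ℝ) (h1 : 3 ≤ H) (h2 : H ≤ (63 / 20)) :
    (375 / 2 - (6999 / 100 * H - 5263 / 50)) * (144 * H ^ 2) ≤
      50 * (81 / 5) * ((579 / 50) + (-7 / 5) * (H - 3)) ^ 2 := by
  obtain ⟨x, rfl⟩ : ∃ x, H = 3 + x := ⟨H - 3, by ring⟩
  have hx : 0 ≤ x := by linarith
  have hx1 : x ≤ (3 / 20) := by linarith
  nlinarith [mul_nonneg hx (sub_nonneg.2 hx1), mul_nonneg (mul_nonneg hx hx) (sub_nonneg.2 hx1),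
    mul_nonneg hx (sq_nonneg (x - (3 / 40))), sq_nonneg (x - (3 / 40))]

theorem elowx_w19 (H : ℝ) (h1 : (63 / 20) ≤ H) (h2 : H ≤ (33 / 10)) :
    (375 / 2 - (6999 / 100 * H - 5263 / 50)) * (144 * H ^ 2) ≤
      50 * (81 / 5) * ((1137 / 100) + (-12 / 5) * (H - (63 / 20))) ^ 2 := by
  obtain ⟨x, rfl⟩ : ∃ x, H = (63 / 20) + x := ⟨H - (63 / 20), by ring⟩
  have hx : 0 ≤ x := by linarith
  have hx1 : x ≤ (3 / 20) := by linarith
  nlinarith [mul_nonneg hx (sub_nonneg.2 hx1), mul_nonneg (mul_nonneg hx hx) (sub_nonneg.2 hx1),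
    mul_nonneg hx (sq_nonneg (x - (3 / 40))), sq_nonneg (x - (3 / 40))]

theorem elowx_w20 (H : ℝ) (h1 : (33 / 10) ≤ H) (h2 : H ≤ (18 / 5)) :
    (375 / 2 - (6999 / 100 * H - 5263 / 50)) * (144 * H ^ 2) ≤
      50 * 15 * ((1153 / 100) + (-43 / 10) * (H - (33 / 10))) ^ 2 := by
  obtain ⟨x, rfl⟩ : ∃ x, H = (33 / 10) + x := ⟨H - (33 / 10), by ring⟩
  have hx : 0 ≤ x := by linarith
  have hx1 : x ≤ (3 / 10) := by linarith
  nlinarith [mul_nonneg hx (sub_nonneg.2 hx1), mul_nonneg (mul_nonneg hx hx) (sub_nonneg.2 hx1),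
    mul_nonneg hx (sq_nonneg (x - (3 / 20))), sq_nonneg (x - (3 / 20))]

theorem elowx_w21 (H : ℝ) (h1 : (18 / 5) ≤ H) (h2 : H ≤ (21 / 5)) :
    (375 / 2 - (6999 / 100 * H - 5263 / 50)) * (144 * H ^ 2) ≤
      50 * 15 * ((529 / 50) + (-19 / 2) * (H - (18 / 5))) ^ 2 := by
  obtain ⟨x, rfl⟩ : ∃ x, H = (18 / 5) + x := ⟨H - (18 / 5), by ring⟩
  have hx : 0 ≤ x := by linarith
  have hx1 : x ≤ (3 / 5) := by linarith
  nlinarith [mul_nonneg hx (sub_nonneg.2 hx1), mul_nonneg (mul_nonneg hx hx) (sub_nonneg.2 hx1),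
    mul_nonneg hx (sq_nonneg (x - (3 / 10))), sq_nonneg (x - (3 / 10))]

theorem elowx_gam {H : ℝ} : gam H = if H < 31 / 20 then 24 else if H < 8 / 5 then 217 / 10 else
    if H < 17 / 10 then 187 / 10 else if H < 89 / 50 then 35 / 2 else if H < 14 / 5 then 86 / 5 else
      if H < 33 / 10 then 81 / 5 else 15 := rfl

theorem st_ELOWX : ST_ELOWX := by
  intro H s t σ f La h1 h2 hs hσ hσ1 hst h3 hf hLa hL
  have hH : 0 < H := by linarith
  have ht : t ≤ s / 2 - 1 / 2 + H / 3 := by linarith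
  have hst2 : s ≤ σ * (s / 2 - 1 / 2 + H / 3) := hst.trans (mul_le_mul_of_nonneg_left ht hσ)
  obtain ⟨X, hX⟩ : ∃ X, X = 77 / 100 - (9 / 4 * f + 3 * H * (1 - s) + H ^ 2 + 3) / (12 * H) := ⟨_, rfl⟩
  have hX1 : 12 * H * X = 12 * H * (77 / 100) - (9 / 4 * f + 3 * H * (1 - s) + H ^ 2 + 3) := by
    rw [hX]
    field_simp
  have hN : 156 / 25 * H - H ^ 2 - 21 / 4 + s * (63 / 8 + 9 / 8 * σ) + 9 / 4 * s ^ 2 ≤ 12 * H * X := by
    rw [hX1]
    have m := mul_le_mul_of_nonneg_left ht hs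
    linear_combination (9 / 4) * hf + 9 * m
  have hN0 : 0 ≤ 156 / 25 * H - H ^ 2 - 21 / 4 + s * (63 / 8 + 9 / 8 * σ) + 9 / 4 * s ^ 2 := by
    have m1 : 0 ≤ 156 / 25 * H - H ^ 2 - 21 / 4 := by
      have m2 := mul_nonneg (sub_nonneg.2 h1) (sub_nonneg.2 h2)
      linarith
    have m3 : 0 ≤ s * (63 / 8 + 9 / 8 * σ) := by positivity
    have m4 : 0 ≤ 9 / 4 * s ^ 2 := by positivity
    linarith
  rw [← hX]
  refine ⟨?_, ?_⟩
  · have h12 : 0 < 12 * H := by linarith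
    exact nonneg_of_mul_nonneg_right (hN0.trans hN) h12
  have key : ∀ (R μ g w : ℝ), 0 < g → 0 < μ → 0 ≤ R → gam H = g → w00 H = w →
      R * (s + (1 - σ ^ 2) / 16 + μ ^ 2) ≤
        2 * μ * (156 / 25 * H - H ^ 2 - 21 / 4 + s * (63 / 8 + 9 / 8 * σ) + 9 / 4 * s ^ 2) →
      (375 / 2 - w) * (144 * H ^ 2) ≤ 50 * g * R ^ 2 →
      (375 / 2 - w00 H) * La ≤ 50 * gam H * X ^ 2 := by
    intro R μ g w hg hμ hR e1 e2 k1 k2
    rw [e1, e2]
    exact elowx_core hH hg hμ hR hLa hL k1 k2 hN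
  clear hN hN0 hX1 hX h3 hf hL hLa ht hst
  rcases lt_or_ge H (31 / 20) with a0 | a0
  · exact key ((3487 / 500) + (19 / 5) * (H - (3 / 2))) (1 / 4) 24 ((1451 / 50 * H + 263 / 20 * H ^ 2) * (77 / 100 - 1 / H))
      (by norm_num) (by norm_num) (by linarith only [h1, a0.le])
      (by rw [elowx_gam, if_pos (by linarith only [a0])])
      (by unfold w00; rw [if_pos (by linarith only [a0])]) (elowx_i0 H s σ h1 a0.le hs hσ hσ1 hst2)
      (elowx_w0 H h1 a0.le)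
  rcases lt_or_ge H (8 / 5) with a1 | a1
  · exact key ((3767 / 500) + 4 * (H - (31 / 20))) (13 / 50) (217 / 10) ((1451 / 50 * H + 263 / 20 * H ^ 2) * (77 / 100 - 1 / H))
      (by norm_num) (by norm_num) (by linarith only [a0, a1.le])
      (by rw [elowx_gam, if_neg (by linarith only [a0]),
        if_pos (by linarith only [a1])])
      (by unfold w00; rw [if_pos (by linarith only [a1])]) (elowx_i1 H s σ a0 a1.le hs hσ hσ1 hst2)
      (elowx_w1 H a0 a1.le)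
  rcases lt_or_ge H (33 / 20) with a2 | a2
  · exact key ((8329 / 1000) + (21 / 5) * (H - (8 / 5))) (27 / 100) (187 / 10) ((1451 / 50 * H + 263 / 20 * H ^ 2) * (77 / 100 - 1 / H))
      (by norm_num) (by norm_num) (by linarith only [a1, a2.le])
      (by rw [elowx_gam, if_neg (by linarith only [a1]),
        if_neg (by linarith only [a1]),
        if_pos (by linarith only [a2])])
      (by unfold w00; rw [if_pos (by linarith only [a2])]) (elowx_i2 H s σ a1 a2.le hs hσ hσ1 hst2)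
      (elowx_w2 H a1 a2.le)
  rcases lt_or_ge H (17 / 10) with a3 | a3
  · exact key ((4269 / 500) + (41 / 10) * (H - (33 / 20))) (29 / 100) (187 / 10) ((1451 / 50 * H + 263 / 20 * H ^ 2) * (77 / 100 - 1 / H))
      (by norm_num) (by norm_num) (by linarith only [a2, a3.le])
      (by rw [elowx_gam, if_neg (by linarith only [a2]),
        if_neg (by linarith only [a2]),
        if_pos (by linarith only [a3])])
      (by unfold w00; rw [if_pos (by linarith only [a3])]) (elowx_i3 H s σ a2 a3.le hs hσ hσ1 hst2)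
      (elowx_w3 H a2 a3.le)
  rcases lt_or_ge H (87 / 50) with a4 | a4
  · exact key ((9037 / 1000) + (41 / 10) * (H - (17 / 10))) (31 / 100) (35 / 2) ((1451 / 50 * H + 263 / 20 * H ^ 2) * (77 / 100 - 1 / H))
      (by norm_num) (by norm_num) (by linarith only [a3, a4.le])
      (by rw [elowx_gam, if_neg (by linarith only [a3]),
        if_neg (by linarith only [a3]),
        if_neg (by linarith only [a3]),
        if_pos (by linarith only [a4])])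
      (by unfold w00; rw [if_pos (by linarith only [a4])]) (elowx_i4 H s σ a3 a4.le hs hσ hσ1 hst2)
      (elowx_w4 H a3 a4.le)
  rcases lt_or_ge H (89 / 50) with a5 | a5
  · exact key ((9203 / 1000) + 4 * (H - (87 / 50))) (33 / 100) (35 / 2) ((1451 / 50 * H + 263 / 20 * H ^ 2) * (77 / 100 - 1 / H))
      (by norm_num) (by norm_num) (by linarith only [a4, a5.le])
      (by rw [elowx_gam, if_neg (by linarith only [a4]),
        if_neg (by linarith only [a4]),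
        if_neg (by linarith only [a4]),
        if_pos (by linarith only [a5])])
      (by unfold w00; rw [if_pos (by linarith only [a5])]) (elowx_i5 H s σ a4 a5.le hs hσ hσ1 hst2)
      (elowx_w5 H a4 a5.le)
  rcases lt_or_ge H (9 / 5) with a6 | a6
  · exact key ((1889 / 200) + 4 * (H - (89 / 50))) (17 / 50) (86 / 5) ((1451 / 50 * H + 263 / 20 * H ^ 2) * (77 / 100 - 1 / H))
      (by norm_num) (by norm_num) (by linarith only [a5, a6.le])
      (by rw [elowx_gam, if_neg (by linarith only [a5]),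
        if_neg (by linarith only [a5]),
        if_neg (by linarith only [a5]),
        if_neg (by linarith only [a5]),
        if_pos (by linarith only [a6])])
      (by unfold w00; rw [if_pos (by linarith only [a6])]) (elowx_i6 H s σ a5 a6.le hs hσ hσ1 hst2)
      (elowx_w6 H a5 a6.le)
  rcases lt_or_ge H (37 / 20) with a7 | a7
  · exact key ((1903 / 200) + (16 / 5) * (H - (9 / 5))) (9 / 25) (86 / 5) (6999 / 100 * H - 5263 / 50)
      (by norm_num) (by norm_num) (by linarith only [a6, a7.le])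
      (by rw [elowx_gam, if_neg (by linarith only [a6]),
        if_neg (by linarith only [a6]),
        if_neg (by linarith only [a6]),
        if_neg (by linarith only [a6]),
        if_pos (by linarith only [a7])])
      (by unfold w00; rw [if_neg (by linarith only [a6])]) (elowx_i7 H s σ a6 a7.le hs hσ hσ1 hst2)
      (elowx_w7 H a6 a7.le)
  rcases lt_or_ge H (19 / 10) with a8 | a8
  · exact key ((387 / 40) + (31 / 10) * (H - (37 / 20))) (19 / 50) (86 / 5) (6999 / 100 * H - 5263 / 50)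
      (by norm_num) (by norm_num) (by linarith only [a7, a8.le])
      (by rw [elowx_gam, if_neg (by linarith only [a7]),
        if_neg (by linarith only [a7]),
        if_neg (by linarith only [a7]),
        if_neg (by linarith only [a7]),
        if_pos (by linarith only [a8])])
      (by unfold w00; rw [if_neg (by linarith only [a7])]) (elowx_i8 H s σ a7 a8.le hs hσ hσ1 hst2)
      (elowx_w8 H a7 a8.le)
  rcases lt_or_ge H (39 / 20) with a9 | a9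
  · exact key ((9829 / 1000) + 3 * (H - (19 / 10))) (2 / 5) (86 / 5) (6999 / 100 * H - 5263 / 50)
      (by norm_num) (by norm_num) (by linarith only [a8, a9.le])
      (by rw [elowx_gam, if_neg (by linarith only [a8]),
        if_neg (by linarith only [a8]),
        if_neg (by linarith only [a8]),
        if_neg (by linarith only [a8]),
        if_pos (by linarith only [a9])])
      (by unfold w00; rw [if_neg (by linarith only [a8])]) (elowx_i9 H s σ a8 a9.le hs hσ hσ1 hst2)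
      (elowx_w9 H a8 a9.le)
  rcases lt_or_ge H 2 with a10 | a10
  · exact key ((4989 / 500) + (14 / 5) * (H - (39 / 20))) (21 / 50) (86 / 5) (6999 / 100 * H - 5263 / 50)
      (by norm_num) (by norm_num) (by linarith only [a9, a10.le])
      (by rw [elowx_gam, if_neg (by linarith only [a9]),
        if_neg (by linarith only [a9]),
        if_neg (by linarith only [a9]),
        if_neg (by linarith only [a9]),
        if_pos (by linarith only [a10])])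
      (by unfold w00; rw [if_neg (by linarith only [a9])]) (elowx_i10 H s σ a9 a10.le hs hσ hσ1 hst2)
      (elowx_w10 H a9 a10.le)
  rcases lt_or_ge H (21 / 10) with a11 | a11
  · exact key ((10121 / 1000) + (13 / 5) * (H - 2)) (11 / 25) (86 / 5) (6999 / 100 * H - 5263 / 50)
      (by norm_num) (by norm_num) (by linarith only [a10, a11.le])
      (by rw [elowx_gam, if_neg (by linarith only [a10]),
        if_neg (by linarith only [a10]),
        if_neg (by linarith only [a10]),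
        if_neg (by linarith only [a10]),
        if_pos (by linarith only [a11])])
      (by unfold w00; rw [if_neg (by linarith only [a10])]) (elowx_i11 H s σ a10 a11.le hs hσ hσ1 hst2)
      (elowx_w11 H a10 a11.le)
  rcases lt_or_ge H (11 / 5) with a12 | a12
  · exact key ((10381 / 1000) + (23 / 10) * (H - (21 / 10))) (47 / 100) (86 / 5) (6999 / 100 * H - 5263 / 50)
      (by norm_num) (by norm_num) (by linarith only [a11, a12.le])
      (by rw [elowx_gam, if_neg (by linarith only [a11]),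
        if_neg (by linarith only [a11]),
        if_neg (by linarith only [a11]),
        if_neg (by linarith only [a11]),
        if_pos (by linarith only [a12])])
      (by unfold w00; rw [if_neg (by linarith only [a11])]) (elowx_i12 H s σ a11 a12.le hs hσ hσ1 hst2)
      (elowx_w12 H a11 a12.le)
  rcases lt_or_ge H (47 / 20) with a13 | a13
  · exact key ((1067 / 100) + (19 / 10) * (H - (11 / 5))) (49 / 100) (86 / 5) (6999 / 100 * H - 5263 / 50)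
      (by norm_num) (by norm_num) (by linarith only [a12, a13.le])
      (by rw [elowx_gam, if_neg (by linarith only [a12]),
        if_neg (by linarith only [a12]),
        if_neg (by linarith only [a12]),
        if_neg (by linarith only [a12]),
        if_pos (by linarith only [a13])])
      (by unfold w00; rw [if_neg (by linarith only [a12])]) (elowx_i13 H s σ a12 a13.le hs hσ hσ1 hst2)
      (elowx_w13 H a12 a13.le)
  rcases lt_or_ge H (5 / 2) with a14 | a14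
  · exact key ((274 / 25) + (7 / 5) * (H - (47 / 20))) (13 / 25) (86 / 5) (6999 / 100 * H - 5263 / 50)
      (by norm_num) (by norm_num) (by linarith only [a13, a14.le])
      (by rw [elowx_gam, if_neg (by linarith only [a13]),
        if_neg (by linarith only [a13]),
        if_neg (by linarith only [a13]),
        if_neg (by linarith only [a13]),
        if_pos (by linarith only [a14])])
      (by unfold w00; rw [if_neg (by linarith only [a13])]) (elowx_i14 H s σ a13 a14.le hs hσ hσ1 hst2)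
      (elowx_w14 H a13 a14.le)
  rcases lt_or_ge H (53 / 20) with a15 | a15
  · exact key ((1117 / 100) + (9 / 10) * (H - (5 / 2))) (27 / 50) (86 / 5) (6999 / 100 * H - 5263 / 50)
      (by norm_num) (by norm_num) (by linarith only [a14, a15.le])
      (by rw [elowx_gam, if_neg (by linarith only [a14]),
        if_neg (by linarith only [a14]),
        if_neg (by linarith only [a14]),
        if_neg (by linarith only [a14]),
        if_pos (by linarith only [a15])])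
      (by unfold w00; rw [if_neg (by linarith only [a14])]) (elowx_i15 H s σ a14 a15.le hs hσ hσ1 hst2)
      (elowx_w15 H a14 a15.le)
  rcases lt_or_ge H (14 / 5) with a16 | a16
  · exact key ((113 / 10) + (3 / 10) * (H - (53 / 20))) (11 / 20) (86 / 5) (6999 / 100 * H - 5263 / 50)
      (by norm_num) (by norm_num) (by linarith only [a15, a16.le])
      (by rw [elowx_gam, if_neg (by linarith only [a15]),
        if_neg (by linarith only [a15]),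
        if_neg (by linarith only [a15]),
        if_neg (by linarith only [a15]),
        if_pos (by linarith only [a16])])
      (by unfold w00; rw [if_neg (by linarith only [a15])]) (elowx_i16 H s σ a15 a16.le hs hσ hσ1 hst2)
      (elowx_w16 H a15 a16.le)
  rcases lt_or_ge H 3 with a17 | a17
  · exact key ((1169 / 100) + (-1 / 2) * (H - (14 / 5))) (14 / 25) (81 / 5) (6999 / 100 * H - 5263 / 50)
      (by norm_num) (by norm_num) (by linarith only [a16, a17.le])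
      (by rw [elowx_gam, if_neg (by linarith only [a16]),
        if_neg (by linarith only [a16]),
        if_neg (by linarith only [a16]),
        if_neg (by linarith only [a16]),
        if_neg (by linarith only [a16]),
        if_pos (by linarith only [a17])])
      (by unfold w00; rw [if_neg (by linarith only [a16])]) (elowx_i17 H s σ a16 a17.le hs hσ hσ1 hst2)
      (elowx_w17 H a16 a17.le)
  rcases lt_or_ge H (63 / 20) with a18 | a18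
  · exact key ((579 / 50) + (-7 / 5) * (H - 3)) (57 / 100) (81 / 5) (6999 / 100 * H - 5263 / 50)
      (by norm_num) (by norm_num) (by linarith only [a17, a18.le])
      (by rw [elowx_gam, if_neg (by linarith only [a17]),
        if_neg (by linarith only [a17]),
        if_neg (by linarith only [a17]),
        if_neg (by linarith only [a17]),
        if_neg (by linarith only [a17]),
        if_pos (by linarith only [a18])])
      (by unfold w00; rw [if_neg (by linarith only [a17])]) (elowx_i18 H s σ a17 a18.le hs hσ hσ1 hst2)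
      (elowx_w18 H a17 a18.le)
  rcases lt_or_ge H (33 / 10) with a19 | a19
  · exact key ((1137 / 100) + (-12 / 5) * (H - (63 / 20))) (29 / 50) (81 / 5) (6999 / 100 * H - 5263 / 50)
      (by norm_num) (by norm_num) (by linarith only [a18, a19.le])
      (by rw [elowx_gam, if_neg (by linarith only [a18]),
        if_neg (by linarith only [a18]),
        if_neg (by linarith only [a18]),
        if_neg (by linarith only [a18]),
        if_neg (by linarith only [a18]),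
        if_pos (by linarith only [a19])])
      (by unfold w00; rw [if_neg (by linarith only [a18])]) (elowx_i19 H s σ a18 a19.le hs hσ hσ1 hst2)
      (elowx_w19 H a18 a19.le)
  rcases lt_or_ge H (18 / 5) with a20 | a20
  · exact key ((1153 / 100) + (-43 / 10) * (H - (33 / 10))) (29 / 50) 15 (6999 / 100 * H - 5263 / 50)
      (by norm_num) (by norm_num) (by linarith only [a19, a20.le])
      (by rw [elowx_gam, if_neg (by linarith only [a19]),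
        if_neg (by linarith only [a19]),
        if_neg (by linarith only [a19]),
        if_neg (by linarith only [a19]),
        if_neg (by linarith only [a19]),
        if_neg (by linarith only [a19])])
      (by unfold w00; rw [if_neg (by linarith only [a19])]) (elowx_i20 H s σ a19 a20.le hs hσ hσ1 hst2)
      (elowx_w20 H a19 a20.le)
  exact key ((529 / 50) + (-19 / 2) * (H - (18 / 5))) (29 / 50) 15 (6999 / 100 * H - 5263 / 50)
      (by norm_num) (by norm_num) (by linarith only [a20, h2])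
      (by rw [elowx_gam, if_neg (by linarith only [a20]),
        if_neg (by linarith only [a20]),
        if_neg (by linarith only [a20]),
        if_neg (by linarith only [a20]),
        if_neg (by linarith only [a20]),
        if_neg (by linarith only [a20])])
      (by unfold w00; rw [if_neg (by linarith only [a20])]) (elowx_i21 H s σ a20 h2 hs hσ hσ1 hst2)
      (elowx_w21 H a20 h2)

end Pool.Agent.Helper19.Un
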