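import Pool.Agent.Helper19.Un.D4Stmts

set_option autoImplicit false

/-!
# The Eisenstein lattice over `E₈` : definitions and statements of the modules (part E)
-/

namespace Pool.Agent.Helper19.Un

open MeasureTheory Topology
open scoped ComplexConjugate

/-- the Eisenstein lattice `E₈`: Eisenstein vectors which are tetracode words modulo `√-3` -/
noncomputable def E8L : AddSubgroup (E 4) where
  carrier := {ζ | (∀ i, ζ i ∈ Eis) ∧ (∃ k ∈ Eis, ζ 0 + ζ 1 + ζ 2 = th * k) ∧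
    ∃ k ∈ Eis, ζ 1 - ζ 2 + ζ 3 = th * k}
  add_mem' := by
    rintro x y ⟨hx, ⟨k, hk, h1⟩, l, hl, h2⟩ ⟨hy, ⟨k', hk', h1'⟩, l', hl', h2'⟩
    refine ⟨fun i => ?_, ⟨k + k', Eis.add_mem hk hk', ?_⟩, l + l', Eis.add_mem hl hl', ?_⟩
    · rw [PiLp.add_apply]
      exact Eis.add_mem (hx i) (hy i)
    · rw [PiLp.add_apply, PiLp.add_apply, PiLp.add_apply]
      linear_combination h1 + h1'
    · rw [PiLp.add_apply, PiLp.add_apply, PiLp.add_apply]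
      linear_combination h2 + h2'
  zero_mem' := ⟨fun i => by rw [PiLp.zero_apply]; exact Eis.zero_mem,
    ⟨0, Eis.zero_mem, by simp⟩, 0, Eis.zero_mem, by simp⟩
  neg_mem' := by
    rintro x ⟨hx, ⟨k, hk, h1⟩, l, hl, h2⟩
    refine ⟨fun i => ?_, ⟨-k, Eis.neg_mem hk, ?_⟩, -l, Eis.neg_mem hl, ?_⟩
    · rw [PiLp.neg_apply]
      exact Eis.neg_mem (hx i)
    · rw [PiLp.neg_apply, PiLp.neg_apply, PiLp.neg_apply]
      linear_combination -h1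
    · rw [PiLp.neg_apply, PiLp.neg_apply, PiLp.neg_apply]
      linear_combination -h2

/-- the Hermitian lattice `√-3 O ⊕ E₈ ⊕ O` -/
noncomputable def ME8 : AddSubgroup (V 4) where
  carrier := {x | (∃ a ∈ Eis, x.1 = th * a) ∧ x.2.1 ∈ E8L ∧ x.2.2 ∈ Eis}
  add_mem' := by
    rintro x y ⟨⟨a, ha, h1⟩, h2, h3⟩ ⟨⟨a', ha', h1'⟩, h2', h3'⟩
    exact ⟨⟨a + a', Eis.add_mem ha ha', by rw [Prod.fst_add, h1, h1']; ring⟩,
      E8L.add_mem h2 h2', Eis.add_mem h3 h3'⟩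
  zero_mem' := ⟨⟨0, Eis.zero_mem, by simp⟩, E8L.zero_mem, Eis.zero_mem⟩
  neg_mem' := by
    rintro x ⟨⟨a, ha, h1⟩, h2, h3⟩
    exact ⟨⟨-a, Eis.neg_mem ha, by rw [Prod.fst_neg, h1]; ring⟩, E8L.neg_mem h2, Eis.neg_mem h3⟩

/-- all Heisenberg translations of the lattice `ME8` -/
def NE8 (a : ℂ) (b : E 4) : Prop :=
  (∃ a' ∈ Eis, a = th * a') ∧ b ∈ E8L ∧ 2 * a.re + ‖b‖ ^ 2 = 0

/-- a basis of `E8L` -/
noncomputable def bE8 : Fin (2 * 4) → E 4 :=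
  ![!₂[th, 0, 0, 0], !₂[th * om, 0, 0, 0], !₂[1, 1, 1, 0], !₂[om, om, om, 0],
    !₂[0, th, 0, 0], !₂[0, th * om, 0, 0], !₂[0, 1, -1, 1], !₂[0, om, -om, om]]

/-- the function of the inverse height `u` used as a weight -/
noncomputable def wt (u : ℝ) : ℝ := max 0 (77 / 100 - u) + max 0 (14 / 25 - u)

/-- the weight, as a function of the height -/
noncomputable def psE8 (r : ℝ) : ℝ := wt (1 / r)

/-! ## lattice facts -/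

def ST_ELAT : Prop := IsLat ME8

def ST_ECUSP : Prop := Cusp NE8 bE8 (Real.sqrt 3) ∧ ∀ a b, NE8 a b → T a b ∈ Gam ME8

def ST_EDUAL : Prop := DualMin bE8 (4 / 3)

/-- an orthogonal frame (squared norms `3 / 2`) in which `E8L` is the standard lattice `E₈` -/
noncomputable def eE : Fin 8 → E 4 :=
  ![!₂[-1 - om, (-1 - om) / 2, 0, -1 / 2], !₂[-1, (1 + om) / 2, 0, 1 / 2],
    !₂[-om, (1 + om) / 2, 0, 1 / 2], !₂[0, (-1 + om) / 2, 0, -th / 2],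
    !₂[0, (-1 + om) / 2, 0, th / 2], !₂[0, (-1 - om) / 2, -1 - om, 1 / 2],
    !₂[0, (-1 - om) / 2, om, 1 / 2], !₂[0, (-1 - om) / 2, 1, 1 / 2]]

/-- the coordinates of a vector in the frame `eE` -/
noncomputable def xe (ζ : E 4) (i : Fin 8) : ℝ := 2 / 3 * (inner ℂ (eE i) ζ).re

/-- `A / 2` lies in the standard lattice `E₈` -/
def GA (A : Fin 8 → ℤ) : Prop :=
  ((∀ i, A i % 2 = 0) ∨ (∀ i, A i % 2 = 1)) ∧ (∑ i, A i) % 4 = 0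

/-- squared distance to `A / 2` -/
noncomputable def sq8 (z : Fin 8 → ℝ) (A : Fin 8 → ℤ) : ℝ := ∑ i, (z i - (A i : ℝ) / 2) ^ 2

/-- coordinates: orthogonality, expansion, norms, description of `E8L` -/
def ST_EISO : Prop :=
  (∀ i j, (inner ℂ (eE i) (eE j)).re = if i = j then 3 / 2 else 0) ∧
  (∀ ζ : E 4, ζ = ∑ i, xe ζ i • eE i) ∧
  (∀ ζ : E 4, 2 / 3 * ‖ζ‖ ^ 2 = ∑ i, xe ζ i ^ 2) ∧
  (∀ ζ : E 4, ζ ∈ E8L ↔ ∃ A : Fin 8 → ℤ, GA A ∧ ∀ i, xe ζ i = (A i : ℝ) / 2)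

/-- the cusp vectors seen in coordinates; `√-3 w` for `w` in the orbit lies in `ME8` -/
def ST_EORB : Prop :=
  (∀ w ∈ Orb ME8, th • w ∈ ME8 ∧ herm w w = 0 ∧
    (w.2.2 = 0 → ∃ s ∈ Eis, ‖s‖ = 1 ∧ w = s • w0)) ∧
  (∀ (a : ℂ) (b : E 4), NE8 a b → ∀ s ∈ Eis, ‖s‖ = 1 →
    ∃ w ∈ Orb ME8, th • w = s • ((a, b, 1) : V 4)) ∧
  (∀ s ∈ Eis, ‖s‖ = 1 → s • (w0 : V 4) ∈ Orb ME8)

/-! ## combinatorics of the root lattice `E₈` -/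

/-- Delaunay cells of `E₈`: regular cross-polytopes and simplices -/
def ST_ECELL : Prop := ∀ z : Fin 8 → ℝ,
  (∃ (v : Fin 8 × Bool → Fin 8 → ℤ) (x : Fin 8 → ℝ), Function.Injective v ∧ (∀ j, GA (v j)) ∧
    ∑ i, |x i| ≤ 1 ∧ ∀ i, sq8 z (v (i, true)) = 1 + ∑ j, x j ^ 2 - 2 * x i ∧
      sq8 z (v (i, false)) = 1 + ∑ j, x j ^ 2 + 2 * x i) ∨
  ∃ (v : Fin 9 → Fin 8 → ℤ) (l : Fin 9 → ℝ), Function.Injective v ∧ (∀ j, GA (v j)) ∧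
    (∀ j, 0 ≤ l j) ∧ ∑ j, l j = 1 ∧ ∀ j, sq8 z (v j) = 1 + ∑ i, l i ^ 2 - 2 * l j

/-- barycentric weights with control of their second moments -/
def ST_EBAR : Prop := ∀ z : Fin 8 → ℝ, ∃ (n : ℕ) (v : Fin n → Fin 8 → ℤ) (lam : Fin n → ℝ)
  (s t σ : ℝ), Function.Injective v ∧ (∀ j, GA (v j)) ∧ (∀ j, 0 ≤ lam j) ∧ ∑ j, lam j = 1 ∧
    0 ≤ s ∧ 0 ≤ σ ∧ σ ≤ 1 ∧ s ≤ σ * t ∧ ∑ j, lam j * sq8 z (v j) = 1 - s ∧
    ∑ j, lam j * sq8 z (v j) ^ 2 ≤ (1 + s) ^ 2 - 4 * s * (1 + s) + 4 * t * s + (1 - σ) * s / 2 ∧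
    ∑ j, lam j ^ 2 ≤ s + (1 - σ ^ 2) / 16 ∧ ∃ j, sq8 z (v j) = 1 + s - 2 * t

/-- few lattice points are close to a given point -/
def ST_EKER : Prop := ∀ (z : Fin 8 → ℝ) (S : Finset (Fin 8 → ℤ)), (∀ A ∈ S, GA A) →
  ∀ β : ℝ, 1 ≤ β → β ≤ 25 / 16 → ∑ A ∈ S, max 0 (β - sq8 z A) ≤ 16 * β - 15

/-! ## upper bounds -/

/-- inverse height of the cusps of type 1, and their sum -/
noncomputable def u1 (H d v : ℝ) : ℝ := ((3 / 2 * d + H) ^ 2 + 3 * v ^ 2) / (12 * H)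

/-- inverse height of the cusps of type 3 -/
noncomputable def u3 (H d v : ℝ) : ℝ := ((1 / 2 * d + H) ^ 2 + 3 * v ^ 2) / (4 * H)

/-- inverse height of the cusps of type 4 -/
noncomputable def u4 (H d v : ℝ) : ℝ := ((3 / 8 * d + H) ^ 2 + 3 * v ^ 2) / (3 * H)

noncomputable def b1 (H : ℝ) : ℝ := if H < 17 / 10 then 503 / 100 else 527 / 100

noncomputable def b2 (H : ℝ) : ℝ :=
  if H < 89 / 50 then 0 else if H < 19 / 10 then 71 / 100 else if H < 2 then 111 / 100 else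
    if H < 31 / 10 then 123 / 100 else 45 / 100

noncomputable def b3 (H : ℝ) : ℝ :=
  if H < 8 / 5 then 199 / 100 else if H < 17 / 10 then 163 / 100 else
    if H < 89 / 50 then 129 / 100 else if H < 19 / 10 then 97 / 100 else
    if H < 2 then 11 / 20 else if H < 12 / 5 then 17 / 50 else if H < 31 / 10 then 9 / 50 else 0

noncomputable def b4 (H : ℝ) : ℝ :=
  if H < 17 / 10 then 7 / 25 else if H < 19 / 10 then 1 / 5 else if H < 2 then 7 / 50 else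
    if H < 12 / 5 then 11 / 100 else 0

/-- the cusps of type 1, first hinge -/
def ST_ET1 : Prop := ∀ (H : ℝ) (z : Fin 8 → ℝ) (v : (Fin 8 → ℤ) → ℝ), 3 / 2 ≤ H →
  (∀ A, GA A → ∀ k : ℤ, 1 / H ≤ u1 H (sq8 z A) (v A + 2 * k)) →
  ∀ G : Finset ((Fin 8 → ℤ) × ℤ), (∀ g ∈ G, GA g.1) →
    ∑ g ∈ G, max 0 (77 / 100 - u1 H (sq8 z g.1) (v g.1 + 2 * g.2)) ≤ b1 H

/-- the cusps of type 1, second hinge -/
def ST_ET2 : Prop := ∀ (H : ℝ) (z : Fin 8 → ℝ) (v : (Fin 8 → ℤ) → ℝ), 3 / 2 ≤ H →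
  (∀ A, GA A → ∀ k : ℤ, 1 / H ≤ u1 H (sq8 z A) (v A + 2 * k)) →
  ∀ G : Finset ((Fin 8 → ℤ) × ℤ), (∀ g ∈ G, GA g.1) →
    ∑ g ∈ G, max 0 (14 / 25 - u1 H (sq8 z g.1) (v g.1 + 2 * g.2)) ≤ b2 H

/-- the cusps of type 3; only pairs in a set `P` (the actual cusps) occur -/
def ST_ET3 : Prop := ∀ (H : ℝ) (z : Fin 8 → ℝ) (v : (Fin 8 → ℤ) → ℝ), 3 / 2 ≤ H →
  ∀ G : Finset ((Fin 8 → ℤ) × ℤ), (∀ g ∈ G, GA g.1) →
    (∀ g ∈ G, 1 / H ≤ u3 H (sq8 z g.1) (v g.1 + 2 * g.2)) →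
    ∑ g ∈ G, wt (u3 H (sq8 z g.1) (v g.1 + 2 * g.2)) ≤ b3 H

/-- the cusps of type 4 -/
def ST_ET4 : Prop := ∀ (H : ℝ) (z : Fin 8 → ℝ) (v : (Fin 8 → ℤ) → ℝ), 3 / 2 ≤ H →
  ∀ G : Finset ((Fin 8 → ℤ) × ℤ), (∀ g ∈ G, GA g.1) →
    (∀ g ∈ G, 1 / H ≤ u4 H (sq8 z g.1) (v g.1 + g.2)) →
    ∑ g ∈ G, wt (u4 H (sq8 z g.1) (v g.1 + g.2)) ≤ b4 H

/-- the upper bound for the sum over all cusps (each cusp has six vectors) -/
def ST_EUP : Prop := ∀ p ∈ SD 4, 3 / 2 ≤ hgt p → (∀ w ∈ Orb ME8, 1 / hgt p ≤ uval w p) →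
  ∑' w : Orb ME8, ENNReal.ofReal (psE8 (1 / uval w p)) ≤ ENNReal.ofReal 45

/-! ## reduction and lower bound -/

def ST_ERED : Prop := ∀ p ∈ SD 4, ∃ γ ∈ Gam ME8,
  (∀ w ∈ Orb ME8, 1 / hgt (act γ p) ≤ uval w (act γ p)) ∧ act γ p ∈ Sieg 4 2 (3 / 2)

/-- weighted weight, as a function of the inverse height -/
noncomputable def gE (u : ℝ) : ℝ := muP 4 (4 / 3) (Real.sqrt 3) (1 / u) * wt u

/-- lower bound of `gE (77 / 100 - A)` -/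
def ST_EG : Prop := ∀ A : ℝ, 0 ≤ A → A ≤ 27 / 50 →
  25 * (89 / 5) * A ^ 2 ≤ gE (77 / 100 - A) ∧
  (A ≤ 77 / 100 - 20 / 31 → 25 * (122 / 5) * A ^ 2 ≤ gE (77 / 100 - A)) ∧
  (A ≤ 29 / 200 → 25 * 22 * A ^ 2 ≤ gE (77 / 100 - A)) ∧
  (A ≤ 77 / 100 - 10 / 17 → 25 * (191 / 10) * A ^ 2 ≤ gE (77 / 100 - A)) ∧
  (11 / 50 ≤ A → 25 * ((14 / 5) / (77 / 100 - A) - 1053 / 250) ≤ gE (77 / 100 - A))

/-- the constants of the quadratic minorant -/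
noncomputable def gam (H : ℝ) : ℝ :=
  if H < 31 / 20 then 24 else if H < 8 / 5 then 217 / 10 else if H < 17 / 10 then 187 / 10 else
    if H < 89 / 50 then 35 / 2 else if H < 14 / 5 then 86 / 5 else if H < 33 / 10 then 81 / 5 else 15

/-- two central translates together -/
def ST_EPAIR : Prop := ∀ H A B : ℝ, 3 / 2 ≤ H → H ≤ 21 / 5 → B ≤ A → A - B ≤ 1 / H →
  A ≤ 77 / 100 - 1 / H →
  50 * gam H * max 0 ((A + B) / 2 + H * (A - B) ^ 2 / 4) ^ 2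
    ≤ gE (77 / 100 - A) + gE (77 / 100 - B)

/-- lower bound of `muP 4 (4/3) √3 H * wt (1 / H)` -/
noncomputable def w00 (H : ℝ) : ℝ :=
  if H < 9 / 5 then (1451 / 50 * H + 263 / 20 * H ^ 2) * (77 / 100 - 1 / H) else
    6999 / 100 * H - 5263 / 50

/-- the cusp at infinity -/
def ST_EW : Prop := (∀ H : ℝ, 3 / 2 ≤ H → w00 H ≤ gE (1 / H)) ∧
  ∀ H : ℝ, 21 / 5 ≤ H → 375 / 2 ≤ w00 H

/-- numerical inequality behind the lower bound -/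
def ST_ELOWX : Prop := ∀ H s t σ f La : ℝ, 3 / 2 ≤ H → H ≤ 21 / 5 → 0 ≤ s → 0 ≤ σ → σ ≤ 1 →
  s ≤ σ * t → 3 ≤ 3 / 2 * (1 + s - 2 * t) + H →
  f ≤ (1 + s) ^ 2 - 4 * s * (1 + s) + 4 * t * s + (1 - σ) * s / 2 → 0 < La →
  La ≤ s + (1 - σ ^ 2) / 16 →
  0 ≤ 77 / 100 - (9 / 4 * f + 3 * H * (1 - s) + H ^ 2 + 3) / (12 * H) ∧
  (375 / 2 - w00 H) * La ≤
    50 * gam H * (77 / 100 - (9 / 4 * f + 3 * H * (1 - s) + H ^ 2 + 3) / (12 * H)) ^ 2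

def ST_ELOW : Prop := ∀ p ∈ SD 4, 3 / 2 ≤ hgt p → (∀ w ∈ Orb ME8, 1 / hgt p ≤ uval w p) →
  ENNReal.ofReal (25 * 45) ≤
    ∑' w : Orb ME8, ENNReal.ofReal (muP 4 (4 / 3) (Real.sqrt 3) (1 / uval w p) *
      psE8 (1 / uval w p))

/-! ## assembly -/

def ST_EWTS : Prop := Covers ME8 2 (3 / 2) ∧ Wts ME8 (4 / 3) (Real.sqrt 3) psE8 45 25

end Pool.Agent.Helper19.Un
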