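import Pool.Agent.Helper68.Un.E_LAT
import Pool.Agent.Helper91.Un.E_CUSP
import Pool.Agent.Helper53.Un.E_DUAL
import Pool.Agent.Helper96.Un.E_ORB
import Pool.Agent.Helper2.Un.E_CELL
import Pool.Agent.Helper30.Un.E_BAR
import Pool.Agent.Helper89.Un.E_KER
import Pool.Agent.Helper74.Un.E_T1
import Pool.Agent.Helper85.Un.E_T2
import Pool.Agent.Helper30.Un.E_T3
import Pool.Agent.Helper58.Un.E_T4
import Pool.Agent.Helper94.Un.E_UP
import Pool.Agent.Helper37.Un.E_RED
import Pool.Agent.Helper74.Un.E_G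
import Pool.Agent.Helper17.Un.E_W
import Pool.Agent.Helper84.Un.E_PAIR
import Pool.Agent.Helper56.Un.E_LOWX
import Pool.Agent.Helper94.Un.E_LOW
import Pool.Agent.Helper45.Un.E_WTS

set_option autoImplicit false

/-!
# Assembly of the modules of part E
-/

namespace Pool.Agent.Helper19.Un

theorem ewts_all0 (hI : ST_EISO) : ST_EWTS := by
  have hO : ST_EORB := st_EORB st_ECUSP
  have hB : ST_EBAR := st_EBAR st_ECELL
  have hK : ST_EKER := st_EKER
  exact st_EWTS (st_ERED st_ELAT st_ECUSP hI hO hB)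
    (st_EUP hI hO (st_ET1 hK) (st_ET2 hK) (st_ET3 hK) (st_ET4 hK))
    (st_ELOW hI hO hB (st_EPAIR st_EG) st_EW st_ELOWX)

end Pool.Agent.Helper19.Un
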