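import Pool.Agent.Helper19.UnP.Defs

set_option autoImplicit false

/-!
# The Eisenstein lattice `E₈`
-/

namespace Pool.Agent.Helper19.UnP

/-- the Eisenstein lattice of rank 4 consisting of the vectors of Eisenstein integers with
`x₀ + x₁ + x₂ ≡ x₁ - x₂ + x₃ ≡ 0 mod √-3` (a scaled root lattice `E₈`, with 240 vectors of norm 3) -/
def L4 : Set (Fin 4 → ℂ) :=
  {x | (∀ i, x i ∈ Eis) ∧ (∃ k ∈ Eis, x 0 + x 1 + x 2 = th * k) ∧
    ∃ k ∈ Eis, x 1 - x 2 + x 3 = th * k}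

end Pool.Agent.Helper19.UnP
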