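import Pool.Agent.Helper19.UnP.Fam
import Pool.Agent.Helper56.Un.L4Defs
import Pool.Agent.Helper56.Un.E8All

set_option autoImplicit false

/-!
# The main theorem for the lattice `E₈`
-/

namespace Pool.Agent.Helper19.UnP

open MeasureTheory
open Pool.Agent.Helper19
open scoped ComplexConjugate

theorem mem_L4 (b : Un.E 4) : (fun i => b i) ∈ L4 ↔ b ∈ Un.E8L := Iff.rfl

theorem mem_HL4 (x : Un.V 4) : eL x ∈ HL L4 ↔ x ∈ Un.ME8 := Iff.rfl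

theorem e8_exists {b : Un.E 4} (hb : b ∈ Un.E8L) :
    ∃ a ∈ Eis, 2 * (Un.th * a).re + ‖b‖ ^ 2 = 0 := by
  obtain ⟨x, hx⟩ := Un.ecusp_norm hb
  have h1 := (Un.ecusp_re_im 0 (-x)).1
  refine ⟨((0 : ℤ) : ℂ) + ((-x : ℤ) : ℂ) * Un.om, ⟨0, -x, rfl⟩, ?_⟩
  rw [h1, hx]
  push_cast
  ring

theorem np_E8 : NP L4 = Un.NE8 := by
  refine np_iff Un.st_ECUSP.1 (fun b => ?_) (fun a b h => ?_)
  · rw [mem_L4]
    constructor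
    · intro h
      obtain ⟨a, ha, h1⟩ := e8_exists h
      exact ⟨Un.th * a, ⟨_, ha, rfl⟩, h, h1⟩
    · rintro ⟨a, -, h, -⟩
      exact h
  · obtain ⟨⟨a', ha', rfl⟩, -, -⟩ := h
    exact eis_th ha'

/-- the main theorem for the lattice `E₈` -/
theorem main_E8
    (Δ : Subgroup (Equiv.Perm (V 4))) (hfi : Δ.relIndex (UM (HL L4)) ≠ 0)
    (hwid : ∀ γ ∈ UM (HL L4), ∀ a ∈ Eis, ∀ b ∈ L4, 2 * a.re + nsq b = 0 → γ * T a b * γ⁻¹ ∈ Δ)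
    (β : Fin (2 * 4) → Fin 4 → ℂ)
    (hβ : ∀ b, b ∈ L4 ↔ ∃ k : Fin (2 * 4) → ℤ, b = fun j => ∑ i, (k i : ℂ) * β i j)
    (f : Pt 4 → ℂ) (hf : ContDiffOn ℝ 2 f (SD 4))
    (hinv : ∀ γ ∈ Δ, ∀ p ∈ SD 4, f (act γ p) = f p)
    (hbdd : ∃ B : ℝ, ∀ p ∈ SD 4, ‖f p‖ ≤ B)
    (lam : ℂ) (heig : ∀ p ∈ SD 4, lap f p = -lam * f p)
    (hcusp : ∀ γ ∈ UM (HL L4), ∀ r : ℝ, 0 < r →
      ∫ x in Set.Icc (0 : (Fin (2 * 4) → ℝ) × ℝ) 1, f (act γ (cellpt β x r)) = 0)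
    (hne : ∃ p ∈ SD 4, f p ≠ 0) : ∃ l : ℝ, 25 ≤ l ∧ lam = l := by
  have hN : Un.Cusp (NP L4) Un.bE8 (Real.sqrt 3) := by
    rw [np_E8]
    exact Un.st_ECUSP.1
  have hNM : ∀ a b, NP L4 a b → Un.T a b ∈ Un.Gam Un.ME8 := by
    rw [np_E8]
    exact Un.st_ECUSP.2
  have hΛ : ∀ b : Un.E 4, (fun i => b i) ∈ L4 → ∃ a ∈ Eis, 2 * a.re + ‖b‖ ^ 2 = 0 := by
    intro b hb
    obtain ⟨a, ha, h1⟩ := e8_exists ((mem_L4 b).1 hb)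
    exact ⟨Un.th * a, eis_th ha, h1⟩
  exact main_P Un.main_all mem_HL4 Un.st_ELAT hN Un.st_EDUAL (by norm_num) hNM hΛ (by norm_num)
    Un.ewts_all.1 (by norm_num) Un.ewts_all.2 Δ hfi hwid β hβ f hf hinv hbdd lam heig hcusp hne

end Pool.Agent.Helper19.UnP
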